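import Mathlib

/-!
# Slope of longest monochromatic progressions in the Fibonacci word (MP_ca4252, Q1: true)

For every difference `d ≥ 1` the longest monochromatic arithmetic progression of difference `d`
in the Fibonacci word has length `A d` with `(A d - 1) / d < √5 / τ`.
-/

set_option autoImplicit false

namespace Pool.Agent.Results.MP_ca4252_co.SlopeBound

/-- The substitution `0 ↦ 01`, `1 ↦ 0` on letters. -/
def subst (a : ℕ) : List ℕ := if a = 0 then [0, 1] else [0]

/-- The substitution on finite words. -/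
def substWord (u : List ℕ) : List ℕ := u.flatMap subst

/-- The Fibonacci word: letter `i` is the letter `i` of the `(i+1)`-st iterate of the substitution
on the word `0`. -/
def fibWord (i : ℕ) : ℕ := (substWord^[i + 1] [0]).getD i 0

/-- The lengths `k` of monochromatic progressions of difference `d` in the Fibonacci word. -/
def lengths (d : ℕ) : Set ℕ := {k | ∃ i, ∀ j < k, fibWord (i + j * d) = fibWord i}

/-- The largest length of a monochromatic progression of difference `d`. -/
noncomputable def A (d : ℕ) : ℕ := sSup (lengths d)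

/-! ### The rotation angle -/

/-- `α = 1/τ = τ - 1`. -/
noncomputable def al : ℝ := (√5 - 1) / 2

lemma sqrt5_sq : √5 * √5 = 5 := Real.mul_self_sqrt (by norm_num)

lemma al_sq : al * al = 1 - al := by
  unfold al
  have := sqrt5_sq
  nlinarith

lemma sqrt5_eq : √5 = 2 * al + 1 := by unfold al; ring

lemma al_lb : 0.618 < al := by
  unfold al
  have : (2.236 : ℝ) < √5 := by
    rw [Real.lt_sqrt (by norm_num)]; norm_num
  linarith

lemma al_ub : al < 0.6181 := by
  unfold al
  have : √5 < 2.2362 := by
    rw [Real.sqrt_lt' (by norm_num)]; norm_num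
  linarith

lemma al_irr : Irrational al := by
  have h5 : Irrational (√5) := by
    have := Nat.Prime.irrational_sqrt (show Nat.Prime 5 by norm_num)
    exact_mod_cast this
  have h : al = Real.goldenRatio - 1 := by unfold al Real.goldenRatio; ring
  rw [h]
  exact_mod_cast Real.goldenRatio_irrational.sub_intCast 1

lemma mul_al_ne (d m : ℤ) (hd : d ≠ 0) : (d : ℝ) * al ≠ m := by
  intro h
  have h1 : Irrational ((d : ℝ) * al) := al_irr.intCast_mul hd
  rw [h] at h1
  exact Int.not_irrational m h1

/-! ### The rotation coding -/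

open Classical in
/-- Rotation coding. -/
noncomputable def g (n : ℕ) : ℕ := if Int.fract (((n : ℝ) + 2) * al) < al then 0 else 1

/-- `β n = ⌊(n+1)α⌋`. -/
noncomputable def be (n : ℕ) : ℕ := ⌊((n : ℝ) + 1) * al⌋₊

lemma be_bounds (n : ℕ) : (be n : ℝ) < ((n : ℝ) + 1) * al ∧ ((n : ℝ) + 1) * al < be n + 1 := by
  have hpos : 0 ≤ ((n : ℝ) + 1) * al := by
    have := al_lb
    positivity
  constructor
  · have h1 : (be n : ℝ) ≤ ((n : ℝ) + 1) * al := Nat.floor_le hpos
    rcases h1.lt_or_eq with h | h
    · exact h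
    · exfalso
      have := mul_al_ne ((n : ℤ) + 1) (be n) (by omega)
      push_cast at this
      exact this h.symm
  · exact Nat.lt_floor_add_one _

lemma fract_eq_of (x : ℝ) (z : ℤ) (h1 : (z : ℝ) ≤ x) (h2 : x < z + 1) : Int.fract x = x - z := by
  rw [Int.fract, Int.floor_eq_iff.mpr ⟨h1, h2⟩]

lemma g_zero_iff (n : ℕ) : g n = 0 ↔ Int.fract (((n : ℝ) + 2) * al) < al := by
  unfold g
  split_ifs with h <;> simp [h]

lemma g_one_iff (n : ℕ) : g n = 1 ↔ al ≤ Int.fract (((n : ℝ) + 2) * al) := by
  unfold g
  split_ifs with h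
  · simp [not_le.mpr h]
  · simpa using h

lemma g_cases (n : ℕ) : g n = 0 ∨ g n = 1 := by
  unfold g; split_ifs <;> simp

lemma be_succ (n : ℕ) : be (n + 1) = be n + if g n = 0 then 1 else 0 := by
  obtain ⟨h1, h2⟩ := be_bounds n
  obtain ⟨h3, h4⟩ := be_bounds (n + 1)
  push_cast at h3 h4
  have hl := al_lb
  have hu := al_ub
  by_cases h : g n = 0
  · rw [if_pos h]
    rw [g_zero_iff] at h
    have key : (be n : ℝ) + 1 ≤ ((n : ℝ) + 2) * al := by
      by_contra hcon
      rw [not_le] at hcon
      rw [fract_eq_of _ (be n) (by push_cast; linarith) (by push_cast; linarith)] at h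
      push_cast at h
      linarith
    have h5 : (be n : ℝ) < be (n + 1) := by linarith
    have h6 : (be (n + 1) : ℝ) < be n + 2 := by linarith
    have h7 : be n < be (n + 1) := by exact_mod_cast h5
    have h8 : be (n + 1) < be n + 2 := by exact_mod_cast h6
    omega
  · rw [if_neg h]
    have hg : g n = 1 := by
      rcases g_cases n with h' | h'
      · exact absurd h' h
      · exact h'
    rw [g_one_iff] at hg
    have key : ((n : ℝ) + 2) * al < (be n : ℝ) + 1 := by
      by_contra hcon
      rw [not_lt] at hcon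
      rw [fract_eq_of _ (be n + 1) (by push_cast; linarith) (by push_cast; linarith)] at hg
      push_cast at hg
      linarith
    have h5 : (be (n + 1) : ℝ) < be n + 1 := by linarith
    have h6 : (be n : ℝ) < be (n + 1) + 1 := by linarith
    have h7 : be (n + 1) < be n + 1 := by exact_mod_cast h5
    have h8 : be n < be (n + 1) + 1 := by exact_mod_cast h6
    omega

/-- The letter at the position `n + β n` is `0`. -/
lemma g_pos (n : ℕ) : g (n + be n) = 0 := by
  rw [g_zero_iff]
  obtain ⟨h1, h2⟩ := be_bounds n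
  have hl := al_lb
  have hu := al_ub
  have hs := al_sq
  have e : (((n + be n : ℕ) : ℝ) + 2) * al
      = ((n : ℝ) + 1) + (1 - (((n : ℝ) + 1) * al - be n)) * al := by
    push_cast
    linear_combination ((n : ℝ) + 1) * hs
  set r := ((n : ℝ) + 1) * al - be n with hr
  have hr0 : 0 < r := by linarith
  have hr1 : r < 1 := by linarith
  rw [e, fract_eq_of _ ((n : ℤ) + 1) (by push_cast; nlinarith) (by push_cast; nlinarith)]
  push_cast
  nlinarith

/-- If letter `n` is `0` then the letter at the position `n + β n + 1` is `1`. -/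
lemma g_pos_succ (n : ℕ) (h : g n = 0) : g (n + be n + 1) = 1 := by
  rw [g_one_iff]
  obtain ⟨h1, h2⟩ := be_bounds n
  have hl := al_lb
  have hu := al_ub
  have hs := al_sq
  have hb := be_succ n
  rw [if_pos h] at hb
  obtain ⟨h3, h4⟩ := be_bounds (n + 1)
  rw [hb] at h3
  push_cast at h3
  have e : (((n + be n + 1 : ℕ) : ℝ) + 2) * al
      = ((n : ℝ) + 1) + (2 - (((n : ℝ) + 1) * al - be n)) * al := by
    push_cast
    linear_combination ((n : ℝ) + 1) * hs
  set r := ((n : ℝ) + 1) * al - be n with hr
  have hr0 : 0 < r := by linarith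
  have hr1 : r < 1 := by linarith
  have hr2 : 1 - al < r := by
    have : (be n : ℝ) + 1 < ((n : ℝ) + 1) * al + al := by linarith
    linarith
  rw [e, fract_eq_of _ ((n : ℤ) + 1) (by push_cast; nlinarith) (by push_cast; nlinarith)]
  push_cast
  nlinarith

/-- The prefix of length `n` of `g`. -/
noncomputable def G (n : ℕ) : List ℕ := (List.range n).map g

lemma G_succ (n : ℕ) : G (n + 1) = G n ++ [g n] := by
  simp [G, List.range_succ]

lemma substWord_append (u v : List ℕ) : substWord (u ++ v) = substWord u ++ substWord v := by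
  simp [substWord]

lemma substWord_G (n : ℕ) : substWord (G n) = G (n + be n) := by
  induction n with
  | zero =>
    have h0 : be 0 = 0 := by
      obtain ⟨h1, -⟩ := be_bounds 0
      have hu := al_ub
      have : (be 0 : ℝ) < 1 := by push_cast at h1; linarith
      have : be 0 < 1 := by exact_mod_cast this
      omega
    rw [h0]
    simp [G, substWord]
  | succ n ih =>
    rw [G_succ, substWord_append, ih]
    rcases g_cases n with h | h
    · have e : n + 1 + be (n + 1) = n + be n + 1 + 1 := by
        rw [be_succ, if_pos h]; ring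
      rw [e, G_succ, G_succ, g_pos, g_pos_succ n h, h]
      simp [substWord, subst]
    · have e : n + 1 + be (n + 1) = n + be n + 1 := by
        rw [be_succ, if_neg (by omega)]; ring
      rw [e, G_succ, g_pos, h]
      simp [substWord, subst]

lemma be_pos (n : ℕ) (hn : 1 ≤ n) : 1 ≤ be n := by
  obtain ⟨-, h2⟩ := be_bounds n
  have hl := al_lb
  by_contra h
  have h0 : be n = 0 := by omega
  rw [h0] at h2
  have h3 : (1 : ℝ) ≤ n := by exact_mod_cast hn
  push_cast at h2
  nlinarith

lemma iter_eq (k : ℕ) : ∃ n, k < n ∧ substWord^[k] [0] = G n := by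
  induction k with
  | zero =>
    refine ⟨1, by omega, ?_⟩
    have h0 : g 0 = 0 := by
      rw [g_zero_iff]
      have hl := al_lb
      have hu := al_ub
      rw [fract_eq_of _ 1 (by push_cast; linarith) (by push_cast; linarith)]
      push_cast; linarith
    simp [G, h0]
  | succ k ih =>
    obtain ⟨n, hn, e⟩ := ih
    refine ⟨n + be n, ?_, ?_⟩
    · have := be_pos n (by omega)
      omega
    · rw [Function.iterate_succ_apply', e, substWord_G]

lemma fibWord_eq (i : ℕ) : fibWord i = g i := by
  obtain ⟨n, hn, e⟩ := iter_eq (i + 1)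
  unfold fibWord
  rw [e, G]
  rw [List.getD_eq_getElem?_getD, List.getElem?_map, List.getElem?_range (by omega)]
  simp

/-! ### Staying in an arc -/

lemma abs_step {s b : ℝ} (hs : |s| ≤ b) : -b ≤ s ∧ s ≤ b := abs_le.mp hs

lemma stay0 (θ s : ℝ) (K : ℕ) (h0 : 0 ≤ θ) (h1 : θ < al) (hs : |s| ≤ 1 - al)
    (h : ∀ j < K, Int.fract (θ + j * s) < al) : ∀ j < K, 0 ≤ θ + j * s ∧ θ + j * s < al := by
  intro j
  induction j with
  | zero => intro _; simpa using ⟨h0, h1⟩
  | succ j ih =>
    intro hj
    obtain ⟨i1, i2⟩ := ih (by omega)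
    obtain ⟨s1, s2⟩ := abs_step hs
    have hl := al_lb
    have hu := al_ub
    have hf := h (j + 1) hj
    have e : θ + ((j + 1 : ℕ) : ℝ) * s = (θ + j * s) + s := by push_cast; ring
    rw [e] at hf ⊢
    constructor
    · by_contra hc
      rw [not_le] at hc
      rw [fract_eq_of _ (-1) (by push_cast; linarith) (by push_cast; linarith)] at hf
      push_cast at hf
      linarith
    · by_contra hc
      rw [not_lt] at hc
      have : (θ + j * s) + s < 1 := by linarith
      rw [fract_eq_of _ 0 (by push_cast; linarith) (by push_cast; linarith)] at hf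
      push_cast at hf
      linarith

lemma stay1 (θ s : ℝ) (K : ℕ) (h0 : al ≤ θ) (h1 : θ < 1) (hs : |s| ≤ al)
    (hs2 : |s| < 1 / 2)
    (h : ∀ j < K, al ≤ Int.fract (θ + j * s)) : ∀ j < K, al ≤ θ + j * s ∧ θ + j * s < 1 := by
  intro j
  induction j with
  | zero => intro _; simpa using ⟨h0, h1⟩
  | succ j ih =>
    intro hj
    obtain ⟨i1, i2⟩ := ih (by omega)
    obtain ⟨s1, s2⟩ := abs_step hs
    obtain ⟨s3, s4⟩ := abs_lt.mp hs2
    have hl := al_lb
    have hu := al_ub
    have hf := h (j + 1) hj
    have e : θ + ((j + 1 : ℕ) : ℝ) * s = (θ + j * s) + s := by push_cast; ring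
    rw [e] at hf ⊢
    constructor
    · by_contra hc
      rw [not_le] at hc
      rw [fract_eq_of _ 0 (by push_cast; linarith) (by push_cast; linarith)] at hf
      push_cast at hf
      linarith
    · by_contra hc
      rw [not_lt] at hc
      rw [fract_eq_of _ 1 (by push_cast; linarith) (by push_cast; linarith)] at hf
      push_cast at hf
      linarith

/-! ### The norm form -/

lemma norm_eq (d : ℕ) (c : ℤ) (s : ℝ) (hs : s = d * al - c) :
    -s * (d * (2 * al + 1) - s) = ((c ^ 2 + c * d - (d : ℤ) ^ 2 : ℤ) : ℝ) := by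
  have h := al_sq
  subst hs
  push_cast
  linear_combination (-(d : ℝ) ^ 2) * h

lemma s_ne_zero (d : ℕ) (hd : 1 ≤ d) (c : ℤ) (s : ℝ) (hs : s = d * al - c) : s ≠ 0 := by
  intro h0
  have := mul_al_ne (d : ℤ) c (by omega)
  push_cast at this
  apply this
  linarith

lemma first_bound (d : ℕ) (hd : 1 ≤ d) (c : ℤ) (s : ℝ) (hs : s = d * al - c)
    (hs2 : |s| < 1 / 2) (K : ℕ) (hK : K * |s| < al) : (K : ℝ) < (2 - al) * d := by
  have hl := al_lb
  have hu := al_ub
  have hsq := al_sq
  have hd1 : (1 : ℝ) ≤ d := by exact_mod_cast hd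
  have hn := norm_eq d c s hs
  have hne := s_ne_zero d hd c s hs
  obtain ⟨b1, b2⟩ := abs_lt.mp hs2
  have hpos : 0 < d * (2 * al + 1) - s := by nlinarith
  have hK0 : (0 : ℝ) ≤ K := Nat.cast_nonneg K
  set N : ℤ := c ^ 2 + c * d - (d : ℤ) ^ 2 with hN
  have hN0 : N ≠ 0 := by
    intro h0
    rw [h0] at hn
    push_cast at hn
    rcases mul_eq_zero.mp hn with h | h
    · exact hne (by linarith)
    · linarith
  -- the value of √5 α
  have hva : al * (d * (2 * al + 1)) = (2 - al) * d := by linear_combination (2 * (d : ℝ)) * hsq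
  rcases lt_or_gt_of_ne hne with hneg | hsp
  · -- s < 0
    have habs : |s| = -s := abs_of_neg hneg
    rw [habs] at hK
    have hNpos : 0 < N := by
      have : (0 : ℝ) < (N : ℝ) := by
        rw [← hn]
        exact mul_pos (by linarith) hpos
      exact_mod_cast this
    by_cases hN1 : N = 1
    · -- N = 1
      rw [hN1] at hn
      push_cast at hn
      have h1 : (K : ℝ) < al * (d * (2 * al + 1) - s) := by
        have : (K : ℝ) = (K * -s) * (d * (2 * al + 1) - s) := by
          rw [mul_assoc, hn, mul_one]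
        rw [this]
        exact mul_lt_mul_of_pos_right hK hpos
      have h2 : al * (d * (2 * al + 1) - s) = (2 * d - c) + (1 + al) * (-s) := by
        rw [hs]
        linear_combination (2 * (d : ℝ)) * hsq
      have h3 : (1 + al) * (-s) < 1 := by nlinarith
      have h4 : (K : ℝ) < (2 * d - c) + 1 := by linarith
      have h5 : (K : ℤ) < (2 * d - c) + 1 := by exact_mod_cast h4
      have h6 : (K : ℤ) ≤ 2 * d - c := by omega
      have h7 : (K : ℝ) ≤ 2 * d - c := by exact_mod_cast h6
      have h8 : ((2 : ℝ) * d - c) = (2 - al) * d + s := by rw [hs]; ring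
      linarith
    · have hN2 : 2 ≤ N := by omega
      have hN2' : (2 : ℝ) ≤ (N : ℝ) := by exact_mod_cast hN2
      have h1 : (K : ℝ) * 2 ≤ (K * -s) * (d * (2 * al + 1) - s) := by
        rw [mul_assoc, hn]
        exact mul_le_mul_of_nonneg_left hN2' hK0
      have h2 : (K * -s) * (d * (2 * al + 1) - s) < al * (d * (2 * al + 1) - s) :=
        mul_lt_mul_of_pos_right hK hpos
      have h3 : al * (-s) ≤ (2 - al) * d := by nlinarith
      nlinarith
  · -- s > 0
    have habs : |s| = s := abs_of_pos hsp
    rw [habs] at hK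
    have hNneg : N < 0 := by
      have : (N : ℝ) < 0 := by
        rw [← hn]
        nlinarith
      exact_mod_cast this
    have hN1 : (N : ℝ) ≤ -1 := by
      have : N ≤ -1 := by omega
      exact_mod_cast this
    have h1 : (K : ℝ) ≤ (K * s) * (d * (2 * al + 1) - s) := by
      have : (1 : ℝ) ≤ s * (d * (2 * al + 1) - s) := by linarith
      calc (K : ℝ) = K * 1 := by ring
        _ ≤ K * (s * (d * (2 * al + 1) - s)) := mul_le_mul_of_nonneg_left this hK0
        _ = _ := by ring
    have h2 : (K * s) * (d * (2 * al + 1) - s) < al * (d * (2 * al + 1) - s) :=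
      mul_lt_mul_of_pos_right hK hpos
    nlinarith

lemma fract_add_int_mul (x y : ℝ) (j : ℕ) (z : ℤ) (h : y = x + z) (θ : ℝ) :
    Int.fract (θ + j * y) = Int.fract (θ + j * x) := by
  rw [h, show θ + (j : ℝ) * (x + z) = (θ + j * x) + ((j * z : ℤ) : ℝ) by push_cast; ring,
    Int.fract_add_intCast]

/-- Two-step bound. -/
lemma second_bound (θ s : ℝ) (k : ℕ) (hk : 2 ≤ k) (h0 : 0 ≤ θ) (h1 : θ < al)
    (hs1 : 1 - al < |s|) (hs2 : |s| < 1 / 2)
    (h : ∀ j < k, Int.fract (θ + j * s) < al) :
    (2 * (((k - 1) / 2 : ℕ) : ℝ) - 1) * (1 - 2 * |s|) < 2 * al - 1 := by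
  have hl := al_lb
  have hu := al_ub
  have hf1 : Int.fract (θ + s) < al := by
    have := h 1 (by omega)
    simpa using this
  set θ' := Int.fract (θ + s) with hθ'
  have hθ0 : 0 ≤ θ' := Int.fract_nonneg _
  have hodd : ∀ j < k / 2, Int.fract (θ' + j * (2 * s)) < al := by
    intro j hj
    have := h (2 * j + 1) (by omega)
    have e : θ' + j * (2 * s) = (θ + ((2 * j + 1 : ℕ) : ℝ) * s) - (⌊θ + s⌋ : ℤ) := by
      rw [hθ', Int.fract]; push_cast; ring
    rw [e, Int.fract_sub_intCast]
    exact this
  have heven : ∀ j < (k + 1) / 2, Int.fract (θ + j * (2 * s)) < al := by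
    intro j hj
    have := h (2 * j) (by omega)
    have e : θ + j * (2 * s) = (θ + ((2 * j : ℕ) : ℝ) * s) := by
      push_cast; ring
    rw [e]
    exact this
  have hT : (k - 1) / 2 < (k + 1) / 2 := by omega
  have hT' : k / 2 - 1 < k / 2 := by omega
  have hTT : (((k - 1) / 2 : ℕ) : ℝ) ≤ ((k / 2 - 1 : ℕ) : ℝ) + 1 := by
    have : (k - 1) / 2 ≤ (k / 2 - 1) + 1 := by omega
    exact_mod_cast this
  rcases lt_or_ge s 0 with hneg | hpos
  · have habs : |s| = -s := abs_of_neg hneg
    rw [habs] at hs1 hs2 ⊢
    have he2 : |2 * s + 1| ≤ 1 - al := by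
      rw [abs_of_pos (by linarith)]; linarith
    have E := stay0 θ (2 * s + 1) ((k + 1) / 2) h0 h1 he2 (by
      intro j hj
      rw [fract_add_int_mul (2 * s) (2 * s + 1) j 1 (by push_cast; ring)]
      exact heven j hj) ((k - 1) / 2) hT
    have O := stay0 θ' (2 * s + 1) (k / 2) hθ0 hf1 he2 (by
      intro j hj
      rw [fract_add_int_mul (2 * s) (2 * s + 1) j 1 (by push_cast; ring)]
      exact hodd j hj) (k / 2 - 1) hT'
    rcases lt_or_ge (θ + s) 0 with hc | hc
    · have e : θ' = θ + s + 1 := by
        rw [hθ', fract_eq_of _ (-1) (by push_cast; linarith) (by push_cast; linarith)]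
        push_cast; ring
      rw [e] at O
      have O2 := O.2
      nlinarith
    · have e : θ' = θ + s := by
        rw [hθ', fract_eq_of _ 0 (by push_cast; linarith) (by push_cast; linarith)]
        push_cast; ring
      have E2 := E.2
      nlinarith
  · have habs : |s| = s := abs_of_nonneg hpos
    rw [habs] at hs1 hs2 ⊢
    have he2 : |2 * s - 1| ≤ 1 - al := by
      rw [abs_of_neg (by linarith)]; linarith
    have E := stay0 θ (2 * s - 1) ((k + 1) / 2) h0 h1 he2 (by
      intro j hj
      rw [fract_add_int_mul (2 * s) (2 * s - 1) j (-1) (by push_cast; ring)]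
      exact heven j hj) ((k - 1) / 2) hT
    have O := stay0 θ' (2 * s - 1) (k / 2) hθ0 hf1 he2 (by
      intro j hj
      rw [fract_add_int_mul (2 * s) (2 * s - 1) j (-1) (by push_cast; ring)]
      exact hodd j hj) (k / 2 - 1) hT'
    rcases lt_or_ge (θ + s) 1 with hc | hc
    · have e : θ' = θ + s := by
        rw [hθ', fract_eq_of _ 0 (by push_cast; linarith) (by push_cast; linarith)]
        push_cast; ring
      have E1 := E.1
      nlinarith
    · have e : θ' = θ + s - 1 := by
        rw [hθ', fract_eq_of _ 1 (by push_cast; linarith) (by push_cast; linarith)]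
        push_cast; ring
      have O1 := O.1
      rw [e] at O1
      nlinarith

lemma no_int (c a : ℤ) (h1 : (a : ℝ) < c) (h2 : (c : ℝ) < a + 1) : False := by
  have h3 : a < c := by exact_mod_cast h1
  have h4 : c < a + 1 := by exact_mod_cast h2
  omega

lemma second_final (d : ℕ) (hd : 1 ≤ d) (c : ℤ) (s : ℝ) (hs : s = d * al - c)
    (hs1 : 1 - al < |s|) (hs2 : |s| < 1 / 2) (k : ℕ) (hk : 3 ≤ k)
    (h : (2 * (((k - 1) / 2 : ℕ) : ℝ) - 1) * (1 - 2 * |s|) < 2 * al - 1) :
    (k : ℝ) - 1 < (2 - al) * d := by
  have hl := al_lb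
  have hu := al_ub
  have hsq := al_sq
  have hd1 : (1 : ℝ) ≤ d := by exact_mod_cast hd
  have hT : (k : ℝ) - 3 ≤ 2 * (((k - 1) / 2 : ℕ) : ℝ) - 1 := by
    have : k ≤ 2 * ((k - 1) / 2) + 2 := by omega
    have h' : (k : ℝ) ≤ 2 * (((k - 1) / 2 : ℕ) : ℝ) + 2 := by exact_mod_cast this
    linarith
  have hT1 : (1 : ℝ) ≤ (((k - 1) / 2 : ℕ) : ℝ) := by
    have : 1 ≤ (k - 1) / 2 := by omega
    exact_mod_cast this
  set T : ℝ := (((k - 1) / 2 : ℕ) : ℝ) with hTdef
  -- the two-step difference
  have hsigma : ∃ c2 : ℤ, |((2 * d : ℕ) : ℝ) * al - c2| = 1 - 2 * |s| := by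
    rcases lt_or_ge s 0 with hneg | hpos
    · refine ⟨2 * c - 1, ?_⟩
      rw [abs_of_neg hneg] at hs1 hs2 ⊢
      have e : ((2 * d : ℕ) : ℝ) * al - ((2 * c - 1 : ℤ) : ℝ) = 2 * s + 1 := by
        rw [hs]; push_cast; ring
      rw [e, abs_of_pos (by linarith)]; ring
    · refine ⟨2 * c + 1, ?_⟩
      rw [abs_of_nonneg hpos] at hs1 hs2 ⊢
      have e : ((2 * d : ℕ) : ℝ) * al - ((2 * c + 1 : ℤ) : ℝ) = 2 * s - 1 := by
        rw [hs]; push_cast; ring
      rw [e, abs_of_neg (by linarith)]; ring
  obtain ⟨c2, hc2⟩ := hsigma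
  set ε := 1 - 2 * |s| with hε
  have hε0 : 0 < ε := by rw [hε]; linarith
  have hε1 : ε < 2 * al - 1 := by rw [hε]; linarith
  -- the norm form for 2d
  have hnorm : 1 ≤ ε * (2 * d * (2 * al + 1) + ε) := by
    set s2 := ((2 * d : ℕ) : ℝ) * al - c2 with hs2def
    have hn := norm_eq (2 * d) c2 s2 hs2def
    have hne := s_ne_zero (2 * d) (by omega) c2 s2 hs2def
    set N : ℤ := c2 ^ 2 + c2 * ((2 * d : ℕ) : ℤ) - (((2 * d : ℕ) : ℤ)) ^ 2 with hN
    have hle : |s2| ≤ ε := le_of_eq hc2
    obtain ⟨b1, b2⟩ := abs_le.mp hle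
    have hpos : 0 < ((2 * d : ℕ) : ℝ) * (2 * al + 1) - s2 := by
      push_cast
      nlinarith
    have hN0 : N ≠ 0 := by
      intro h0
      rw [h0] at hn
      push_cast at hn
      push_cast at hpos
      rcases mul_eq_zero.mp hn with h | h
      · exact hne (by linarith)
      · linarith
    have hNabs : (1 : ℝ) ≤ |(N : ℝ)| := by
      have : 1 ≤ |N| := Int.one_le_abs hN0
      exact_mod_cast this
    rw [← hn, abs_mul, abs_neg, hc2, abs_of_pos hpos] at hNabs
    calc (1 : ℝ) ≤ ε * (((2 * d : ℕ) : ℝ) * (2 * al + 1) - s2) := hNabs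
      _ ≤ ε * (2 * d * (2 * al + 1) + ε) := by
        apply mul_le_mul_of_nonneg_left _ hε0.le
        push_cast
        linarith
  have hmain : 2 * T - 1 < (2 * al - 1) * (2 * d * (2 * al + 1) + ε) := by
    have hpos : 0 < 2 * (d : ℝ) * (2 * al + 1) + ε := by nlinarith
    have h1 : (2 * T - 1) ≤ ((2 * T - 1) * ε) * (2 * d * (2 * al + 1) + ε) := by
      rw [mul_assoc]
      have : (2 * T - 1) * 1 ≤ (2 * T - 1) * (ε * (2 * d * (2 * al + 1) + ε)) :=
        mul_le_mul_of_nonneg_left hnorm (by linarith)
      linarith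
    have h2 : ((2 * T - 1) * ε) * (2 * d * (2 * al + 1) + ε)
        < (2 * al - 1) * (2 * d * (2 * al + 1) + ε) := mul_lt_mul_of_pos_right h hpos
    linarith
  have hval : (2 * al - 1) * (2 * d * (2 * al + 1) + ε)
      = 2 * d * (3 - 4 * al) + (2 * al - 1) * ε := by
    linear_combination (8 * (d : ℝ)) * hsq
  rw [hval] at hmain
  have hsmall : (2 * al - 1) * ε < 0.0558 := by nlinarith
  rcases Nat.lt_or_ge d 7 with h7 | h7
  · -- small differences
    obtain ⟨b1, b2⟩ := abs_lt.mp hs2
    rw [hs] at b1 b2
    have hk3 : (3 : ℝ) ≤ k := by exact_mod_cast hk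
    rcases lt_abs.mp hs1 with hp | hp
    · rw [hs] at hp
      interval_cases d
      · exact (no_int c 0 (by push_cast at *; linarith) (by push_cast at *; linarith)).elim
      · exact (no_int c 0 (by push_cast at *; linarith) (by push_cast at *; linarith)).elim
      · exact (no_int c 1 (by push_cast at *; linarith) (by push_cast at *; linarith)).elim
      · -- d = 4
        have hc : c = 2 := by
          have h1 : (1 : ℝ) < c := by push_cast at *; linarith
          have h2 : (c : ℝ) < 3 := by push_cast at *; linarith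
          have h3 : 1 < c := by exact_mod_cast h1
          have h4 : c < 3 := by exact_mod_cast h2
          omega
        have hsv : s = 4 * al - 2 := by rw [hs, hc]; push_cast; ring
        have hεv : ε = 5 - 8 * al := by
          rw [hε, hsv, abs_of_pos (by linarith)]; ring
        have hT2 : (T : ℝ) < 3 := by
          by_contra hcon
          rw [not_lt] at hcon
          rw [hεv] at h
          nlinarith
        have hT3 : (k - 1) / 2 < 3 := by
          rw [hTdef] at hT2
          exact_mod_cast hT2
        have hk6 : k ≤ 6 := by omega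
        have hk6' : (k : ℝ) ≤ 6 := by exact_mod_cast hk6
        push_cast
        linarith
      · exact (no_int c 2 (by push_cast at *; linarith) (by push_cast at *; linarith)).elim
      · exact (no_int c 3 (by push_cast at *; linarith) (by push_cast at *; linarith)).elim
    · rw [hs] at hp
      interval_cases d
      · exact (no_int c 1 (by push_cast at *; linarith) (by push_cast at *; linarith)).elim
      · exact (no_int c 1 (by push_cast at *; linarith) (by push_cast at *; linarith)).elim
      · exact (no_int c 2 (by push_cast at *; linarith) (by push_cast at *; linarith)).elim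
      · exact (no_int c 2 (by push_cast at *; linarith) (by push_cast at *; linarith)).elim
      · exact (no_int c 3 (by push_cast at *; linarith) (by push_cast at *; linarith)).elim
      · exact (no_int c 4 (by push_cast at *; linarith) (by push_cast at *; linarith)).elim
  · have h7' : (7 : ℝ) ≤ d := by exact_mod_cast h7
    nlinarith

/-! ### Progressions -/

lemma fract_prog (i j d : ℕ) (c : ℤ) (s : ℝ) (hs : s = d * al - c) :
    Int.fract (((i + j * d : ℕ) : ℝ) * al + 2 * al)
      = Int.fract (Int.fract (((i : ℝ) + 2) * al) + j * s) := by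
  have e : ((i + j * d : ℕ) : ℝ) * al + 2 * al
      = (Int.fract (((i : ℝ) + 2) * al) + j * s)
        + ((⌊((i : ℝ) + 2) * al⌋ + j * c : ℤ) : ℝ) := by
    rw [Int.fract, hs]; push_cast; ring
  rw [e, Int.fract_add_intCast]

theorem length_bound (d : ℕ) (hd : 1 ≤ d) (k : ℕ) (hk : k ∈ lengths d) :
    (k : ℝ) - 1 < (2 - al) * d := by
  obtain ⟨i, hi⟩ := hk
  have hl := al_lb
  have hu := al_ub
  have hd1 : (1 : ℝ) ≤ d := by exact_mod_cast hd
  rcases Nat.lt_or_ge k 3 with hk3 | hk3
  · have : (k : ℝ) ≤ 2 := by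
      have : k ≤ 2 := by omega
      exact_mod_cast this
    nlinarith
  -- the nearest integer
  obtain ⟨c, hc⟩ : ∃ c : ℤ, |(d : ℝ) * al - c| < 1 / 2 := by
    refine ⟨round ((d : ℝ) * al), lt_of_le_of_ne (abs_sub_round _) ?_⟩
    intro he
    rcases eq_or_eq_neg_of_abs_eq he with h' | h'
    · have := mul_al_ne (2 * d : ℤ) (2 * round ((d : ℝ) * al) + 1) (by omega)
      push_cast at this
      apply this
      linarith
    · have := mul_al_ne (2 * d : ℤ) (2 * round ((d : ℝ) * al) - 1) (by omega)
      push_cast at this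
      apply this
      linarith
  set s := (d : ℝ) * al - c with hs
  set θ := Int.fract (((i : ℝ) + 2) * al) with hθ
  have hθ0 : 0 ≤ θ := Int.fract_nonneg _
  have hθ1 : θ < 1 := Int.fract_lt_one _
  have hfr : ∀ j, Int.fract ((((i + j * d : ℕ) : ℝ) + 2) * al) = Int.fract (θ + j * s) := by
    intro j
    rw [add_mul]
    exact fract_prog i j d c s hs
  have hg : ∀ j < k, g (i + j * d) = g i := by
    intro j hj
    have := hi j hj
    rwa [fibWord_eq, fibWord_eq] at this
  have hcast : (((k - 1 : ℕ)) : ℝ) = k - 1 := by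
    rw [Nat.cast_sub (by omega)]; simp
  rcases g_cases i with h0 | h1
  · -- letter 0
    have hfl : ∀ j < k, Int.fract (θ + j * s) < al := by
      intro j hj
      have := hg j hj
      rw [h0, g_zero_iff, hfr j] at this
      exact this
    have hθal : θ < al := by
      rw [g_zero_iff] at h0
      exact h0
    rcases le_or_gt |s| (1 - al) with hsm | hbig
    · have hst := stay0 θ s k hθ0 hθal hsm hfl (k - 1) (by omega)
      rw [hcast] at hst
      have hK : ((k - 1 : ℕ) : ℝ) * |s| < al := by
        rw [hcast]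
        have hk0 : (0 : ℝ) ≤ (k : ℝ) - 1 := by
          have : (3 : ℝ) ≤ k := by exact_mod_cast hk3
          linarith
        rw [← abs_of_nonneg hk0, ← abs_mul, abs_lt]
        constructor <;> linarith [hst.1, hst.2]
      have := first_bound d hd c s hs hc (k - 1) hK
      rw [hcast] at this
      exact this
    · exact second_final d hd c s hs hbig hc k hk3
        (second_bound θ s k (by omega) hθ0 hθal hbig hc hfl)
  · -- letter 1
    have hfl : ∀ j < k, al ≤ Int.fract (θ + j * s) := by
      intro j hj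
      have := hg j hj
      rw [h1, g_one_iff, hfr j] at this
      exact this
    have hθal : al ≤ θ := by
      rw [g_one_iff] at h1
      exact h1
    have hst := stay1 θ s k hθal hθ1 (by linarith) hc hfl (k - 1) (by omega)
    rw [hcast] at hst
    have hK : ((k - 1 : ℕ) : ℝ) * |s| < al := by
      rw [hcast]
      have hk0 : (0 : ℝ) ≤ (k : ℝ) - 1 := by
        have : (3 : ℝ) ≤ k := by exact_mod_cast hk3
        linarith
      rw [← abs_of_nonneg hk0, ← abs_mul, abs_lt]
      constructor <;> linarith [hst.1, hst.2]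
    have := first_bound d hd c s hs hc (k - 1) hK
    rw [hcast] at this
    exact this

/-- For every difference `d ≥ 1` there is a longest monochromatic progression of difference `d` in
the Fibonacci word, and its length `A d` satisfies `(A d - 1) / d < √5 / τ`. -/
theorem result : ∀ d : ℕ, 1 ≤ d →
    IsGreatest (lengths d) (A d) ∧ ((A d : ℝ) - 1) / d < √5 / Real.goldenRatio := by
  intro d hd
  have hl := al_lb
  have hu := al_ub
  have hd1 : (1 : ℝ) ≤ d := by exact_mod_cast hd
  have hbdd : BddAbove (lengths d) := by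
    refine ⟨2 * d + 1, ?_⟩
    intro k hk
    have h1 := length_bound d hd k hk
    have h2 : (k : ℝ) < 2 * d + 1 := by nlinarith
    have h3 : k < 2 * d + 1 := by exact_mod_cast h2
    omega
  have hne : (lengths d).Nonempty := ⟨0, 0, by intro j hj; omega⟩
  have hmem : A d ∈ lengths d := Nat.sSup_mem hne hbdd
  refine ⟨⟨hmem, fun k hk => le_csSup hbdd hk⟩, ?_⟩
  have h1 := length_bound d hd _ hmem
  have hval : √5 / Real.goldenRatio = 2 - al := by
    have hτ : Real.goldenRatio = al + 1 := by unfold al Real.goldenRatio; ring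
    rw [hτ, sqrt5_eq, div_eq_iff (by linarith)]
    linear_combination al_sq
  rw [hval, div_lt_iff₀ (by linarith)]
  exact h1

end Pool.Agent.Results.MP_ca4252_co.SlopeBound
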